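import Mathlib

/-!
# Full and reduced `L^p` crossed products by finite groups agree isometrically

Let `(v, π)` be a nondegenerate contractive covariant representation on an `L^p` space `E`. The
regular representation of `π` acts on `ℓ^p(G, E)`. For `η` in `E` let `ζ` be the function
`h ↦ v_h⁻¹ η`. The regular representation of `a` maps `ζ` to the function `h ↦ v_h⁻¹ (v ⋉ π)(a) η`.
All values of these two functions have the same norm, so the norm of `(v ⋉ π)(a) η` is at most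
the reduced norm of `a` times the norm of `η` (this is Fell's absorption argument).
-/

set_option autoImplicit false

open MeasureTheory
open scoped ENNReal

noncomputable section

namespace Pool.Agent.Results.MP_579095_an.FullEqReduced

universe u

section defs

/-- `E` is (isometrically isomorphic to) `L^p(X, μ)` for some `σ`-finite measure `μ`. -/
def IsLpSpace (p : ℝ≥0∞) [Fact (1 ≤ p)] (E : Type u) [NormedAddCommGroup E] [NormedSpace ℂ E] :
    Prop :=
  ∃ (X : Type u) (_ : MeasurableSpace X) (μ : Measure X), SigmaFinite μ ∧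
    Nonempty (E ≃ₗᵢ[ℂ] Lp ℂ p μ)

variable {A : Type u} [NonUnitalNormedRing A] [NormedSpace ℂ A]
variable {E : Type u} [NormedAddCommGroup E] [NormedSpace ℂ E]

/-- The homomorphism `π : A → L(E)` is nondegenerate: the span of `π(A) E` is dense in `E`. -/
def Nondegenerate (π : A →ₙₐ[ℂ] (E →L[ℂ] E)) : Prop :=
  Dense (Submodule.span ℂ {ξ : E | ∃ x η, π x η = ξ} : Set E)

/-- The homomorphism `π : A → L(E)` is contractive. -/
def Contractive (π : A →ₙₐ[ℂ] (E →L[ℂ] E)) : Prop := ∀ x, ‖π x‖ ≤ ‖x‖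

/-- `A` is a nondegenerately `σ`-finitely representable `L^p` operator algebra: it has an isometric
nondegenerate representation on some `L^p(X, μ)` with `μ` `σ`-finite. -/
def Representable (p : ℝ≥0∞) [Fact (1 ≤ p)] (A : Type u) [NonUnitalNormedRing A]
    [NormedSpace ℂ A] : Prop :=
  ∃ (E : Type u) (_ : NormedAddCommGroup E) (_ : NormedSpace ℂ E), IsLpSpace p E ∧
    ∃ π : A →ₙₐ[ℂ] (E →L[ℂ] E), (∀ x, ‖π x‖ = ‖x‖) ∧ Nondegenerate π

variable {G : Type u} [Group G]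

/-- `α` is an action of the group `G` on the algebra `A` by isometric automorphisms. -/
structure IsIsometricAction (α : G → A →ₙₐ[ℂ] A) : Prop where
  one : ∀ x, α 1 x = x
  mul : ∀ g h x, α (g * h) x = α g (α h x)
  isometric : ∀ g x, ‖α g x‖ = ‖x‖

/-- `(v, π)` is a nondegenerate contractive covariant representation of `(G, A, α)` on `E`. -/
structure IsCovariant (α : G → A →ₙₐ[ℂ] A) (π : A →ₙₐ[ℂ] (E →L[ℂ] E)) (v : G →* (E ≃ₗᵢ[ℂ] E)) :
    Prop where
  contractive : Contractive π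
  nondegenerate : Nondegenerate π
  covariant : ∀ g x ξ, v g (π x ((v g).symm ξ)) = π (α g x) ξ

variable [Fintype G]

/-- The integrated form `(v ⋉ π)(a) = ∑_g π(a(g)) v_g`. -/
def integrated (π : A →ₙₐ[ℂ] (E →L[ℂ] E)) (v : G →* (E ≃ₗᵢ[ℂ] E)) (a : G → A) (ξ : E) : E :=
  ∑ g, π (a g) (v g ξ)

/-- The norm of `F^p(G, A, α)` on `C(G, A, α)`: the supremum of the operator norms of
`(v ⋉ π)(a)`, i.e. the smallest `M` with `‖(v ⋉ π)(a) ξ‖ ≤ M ‖ξ‖`, over all nondegenerate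
contractive covariant representations `(v, π)` on `L^p` spaces. -/
def fullNorm (p : ℝ≥0∞) [Fact (1 ≤ p)] (α : G → A →ₙₐ[ℂ] A) (a : G → A) : ℝ :=
  sInf {M : ℝ | 0 ≤ M ∧ ∀ (E : Type u) [NormedAddCommGroup E] [NormedSpace ℂ E], IsLpSpace p E →
    ∀ (π : A →ₙₐ[ℂ] (E →L[ℂ] E)) (v : G →* (E ≃ₗᵢ[ℂ] E)), IsCovariant α π v →
      ∀ ξ, ‖integrated π v a ξ‖ ≤ M * ‖ξ‖}

/-- The norm of `ℓ^p(G, E)` for `p < ∞`. -/
def ellNorm (p : ℝ≥0∞) {E : Type u} [NormedAddCommGroup E] (ξ : G → E) : ℝ :=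
  (∑ h, ‖ξ h‖ ^ p.toReal) ^ (1 / p.toReal)

/-- The integrated form of the regular covariant representation associated with `π₀`, that is, of
`(π(x) ξ)(h) = π₀(α_{h⁻¹}(x)) ξ(h)` and `(v_g ξ)(h) = ξ(g⁻¹ h)` on `ℓ^p(G, E)`. Thus
`(∑_g π(a(g)) v_g ξ)(h) = ∑_g π₀(α_{h⁻¹}(a(g))) ξ(g⁻¹ h)`. -/
def regular (α : G → A →ₙₐ[ℂ] A) (π₀ : A →ₙₐ[ℂ] (E →L[ℂ] E)) (a : G → A) (ξ : G → E) (h : G) : E :=
  ∑ g, π₀ (α h⁻¹ (a g)) (ξ (g⁻¹ * h))

/-- The norm of `F^p_r(G, A, α)` on `C(G, A, α)`: the supremum of the operator norms of the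
integrated forms of `a`, over all regular covariant representations on `ℓ^p(G, E)`, with `E` an `L^p`
space. -/
def reducedNorm (p : ℝ≥0∞) [Fact (1 ≤ p)] (α : G → A →ₙₐ[ℂ] A) (a : G → A) : ℝ :=
  sInf {M : ℝ | 0 ≤ M ∧ ∀ (E : Type u) [NormedAddCommGroup E] [NormedSpace ℂ E], IsLpSpace p E →
    ∀ π₀ : A →ₙₐ[ℂ] (E →L[ℂ] E), Contractive π₀ → Nondegenerate π₀ →
      ∀ ξ : G → E, ellNorm p (regular α π₀ a ξ) ≤ M * ellNorm p ξ}

end defs

section defs2

variable {A : Type u} [NonUnitalNormedRing A] [NormedSpace ℂ A]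
variable {E : Type u} [NormedAddCommGroup E] [NormedSpace ℂ E]
variable {G : Type u} [Group G] [Fintype G]

/-- The integrated form as a continuous linear map. -/
def integ (π : A →ₙₐ[ℂ] (E →L[ℂ] E)) (v : G →* (E ≃ₗᵢ[ℂ] E)) (a : G → A) : E →L[ℂ] E :=
  ∑ g, (π (a g)).comp ((v g).toContinuousLinearEquiv : E →L[ℂ] E)

/-- The space `ℓ^p(G, E)`. -/
abbrev Ell (p : ℝ≥0∞) (G : Type u) (E : Type u) : Type u := PiLp p fun _ : G => E

/-- The representation of `A` on `ℓ^p(G, E)` given by `(π(x) ξ)(h) = π₀(α_{h⁻¹}(x)) ξ(h)`. -/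
def regPi (p : ℝ≥0∞) [Fact (1 ≤ p)] (α : G → A →ₙₐ[ℂ] A) (π₀ : A →ₙₐ[ℂ] (E →L[ℂ] E)) :
    A →ₙₐ[ℂ] (Ell p G E →L[ℂ] Ell p G E) where
  toFun x := ((PiLp.continuousLinearEquiv p ℂ fun _ : G => E).symm : (G → E) →L[ℂ] Ell p G E).comp
    (ContinuousLinearMap.pi fun h => (π₀ (α h⁻¹ x)).comp (PiLp.proj p (fun _ : G => E) h))
  map_smul' c x := by
    ext ξ h
    simp
  map_zero' := by
    ext ξ h
    simp
  map_add' x y := by
    ext ξ h
    simp
  map_mul' x y := by
    ext ξ h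
    simp

/-- The isometries of `ℓ^p(G, E)` given by `(v_g ξ)(h) = ξ(g⁻¹ h)`. -/
def regV (p : ℝ≥0∞) [Fact (1 ≤ p)] (G : Type u) [Group G] [Fintype G] (E : Type u)
    [NormedAddCommGroup E] [NormedSpace ℂ E] : G →* (Ell p G E ≃ₗᵢ[ℂ] Ell p G E) where
  toFun g := LinearIsometryEquiv.piLpCongrLeft p ℂ E (Equiv.mulLeft g)
  map_one' := by
    ext ξ h
    simp only [Equiv.mulLeft_one]
    rfl
  map_mul' g g' := by
    ext ξ h
    simp only [Equiv.mulLeft_mul]
    rfl

end defs2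

section proofs

variable {p : ℝ≥0∞} [Fact (1 ≤ p)]
variable {A : Type u} [NonUnitalNormedRing A] [NormedSpace ℂ A]
variable {E : Type u} [NormedAddCommGroup E] [NormedSpace ℂ E]
variable {G : Type u} [Group G] [Fintype G]

theorem regPi_apply (α : G → A →ₙₐ[ℂ] A) (π₀ : A →ₙₐ[ℂ] (E →L[ℂ] E)) (x : A) (ξ : Ell p G E)
    (h : G) : regPi p α π₀ x ξ h = π₀ (α h⁻¹ x) (ξ h) := rfl

theorem regV_apply (g : G) (ξ : Ell p G E) (h : G) : regV p G E g ξ h = ξ (g⁻¹ * h) := rfl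

theorem integ_apply (π : A →ₙₐ[ℂ] (E →L[ℂ] E)) (v : G →* (E ≃ₗᵢ[ℂ] E)) (a : G → A) (ξ : E) :
    integ π v a ξ = ∑ g, π (a g) (v g ξ) := by
  simp [integ]

omit [NormedSpace ℂ E] in
/-- a function with values of constant norm -/
theorem norm_const (hp : p ≠ ∞) (ζ : Ell p G E) (c : ℝ) (h : ∀ g, ‖ζ g‖ = c) :
    ‖ζ‖ = (Fintype.card G : ℝ) ^ (1 / p.toReal) * c := by
  have hp0 : 0 < p.toReal := ENNReal.toReal_pos (zero_lt_one.trans_le (Fact.out : 1 ≤ p)).ne' hp
  have hc : 0 ≤ c := (norm_nonneg _).trans_eq (h 1)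
  rw [PiLp.norm_eq_sum hp0]
  simp only [h, Finset.sum_const, Finset.card_univ, nsmul_eq_mul]
  rw [Real.mul_rpow (by positivity) (by positivity), ← Real.rpow_mul hc, mul_one_div,
    div_self hp0.ne', Real.rpow_one]

omit [Fintype G] in
theorem v_mul (v : G →* (E ≃ₗᵢ[ℂ] E)) (g h : G) (ξ : E) : v (g * h) ξ = v g (v h ξ) := by
  rw [map_mul]
  rfl

omit [Fintype G] in
theorem v_one (v : G →* (E ≃ₗᵢ[ℂ] E)) (ξ : E) : v 1 ξ = ξ := by
  rw [map_one]
  rfl

omit [Fintype G] in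
theorem v_symm (v : G →* (E ≃ₗᵢ[ℂ] E)) (g : G) : (v g⁻¹).symm = v g := by
  rw [map_inv]
  rfl

/-- the main inequality -/
theorem norm_integ_le (hp : p ≠ ∞) {α : G → A →ₙₐ[ℂ] A} {π : A →ₙₐ[ℂ] (E →L[ℂ] E)}
    {v : G →* (E ≃ₗᵢ[ℂ] E)} (h : IsCovariant α π v) (a : G → A) :
    ‖integ π v a‖ ≤ ‖integ (regPi p α π) (regV p G E) a‖ := by
  refine ContinuousLinearMap.opNorm_le_bound _ (norm_nonneg _) fun η => ?_
  set R := integ (regPi p α π) (regV p G E) a with hR
  let ζ : Ell p G E := WithLp.toLp p fun k => v k⁻¹ η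
  have h1 : ∀ k, R ζ k = v k⁻¹ (integ π v a η) := by
    intro k
    have e1 : R ζ k = ∑ g, π (α k⁻¹ (a g)) (v (g⁻¹ * k)⁻¹ η) := by
      rw [hR, integ_apply, WithLp.ofLp_sum, Finset.sum_apply]
      rfl
    rw [e1, integ_apply, map_sum]
    refine Finset.sum_congr rfl fun g _ => ?_
    rw [← h.covariant k⁻¹ (a g)]
    rw [v_symm, mul_inv_rev, inv_inv, ← v_mul, ← mul_assoc, mul_inv_cancel, one_mul]
  have h2 : ‖R ζ‖ = (Fintype.card G : ℝ) ^ (1 / p.toReal) * ‖integ π v a η‖ :=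
    norm_const hp _ _ fun k => by rw [h1, LinearIsometryEquiv.norm_map]
  have h3 : ‖ζ‖ = (Fintype.card G : ℝ) ^ (1 / p.toReal) * ‖η‖ :=
    norm_const hp _ _ fun k => (v k⁻¹).norm_map η
  have h4 := R.le_opNorm ζ
  rw [h2, h3] at h4
  have h5 : 0 < (Fintype.card G : ℝ) ^ (1 / p.toReal) :=
    Real.rpow_pos_of_pos (by exact_mod_cast Fintype.card_pos) _
  nlinarith

theorem norm_integ_le_sum {π : A →ₙₐ[ℂ] (E →L[ℂ] E)} (v : G →* (E ≃ₗᵢ[ℂ] E))
    (h : Contractive π) (a : G → A) : ‖integ π v a‖ ≤ ∑ g, ‖a g‖ := by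
  refine ContinuousLinearMap.opNorm_le_bound _ (by positivity) fun η => ?_
  rw [integ_apply, Finset.sum_mul]
  refine (norm_sum_le _ _).trans (Finset.sum_le_sum fun g _ => ?_)
  refine ((π (a g)).le_opNorm _).trans ?_
  rw [LinearIsometryEquiv.norm_map]
  exact mul_le_mul_of_nonneg_right (h _) (norm_nonneg _)

theorem reg_contractive (hp : p ≠ ∞) {α : G → A →ₙₐ[ℂ] A} (hα : IsIsometricAction α)
    {π₀ : A →ₙₐ[ℂ] (E →L[ℂ] E)} (h : Contractive π₀) : Contractive (regPi p α π₀) := by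
  intro x
  refine ContinuousLinearMap.opNorm_le_bound _ (norm_nonneg _) fun ξ => ?_
  have hp0 : 0 < p.toReal := ENNReal.toReal_pos (zero_lt_one.trans_le (Fact.out : 1 ≤ p)).ne' hp
  rw [PiLp.norm_eq_sum hp0, PiLp.norm_eq_sum hp0]
  have h1 : ‖x‖ = (‖x‖ ^ p.toReal) ^ (1 / p.toReal) := by
    rw [← Real.rpow_mul (norm_nonneg _), mul_one_div, div_self hp0.ne', Real.rpow_one]
  rw [h1, ← Real.mul_rpow (by positivity) (by positivity), Finset.mul_sum]
  refine Real.rpow_le_rpow (by positivity) (Finset.sum_le_sum fun k _ => ?_) (by positivity)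
  rw [← Real.mul_rpow (norm_nonneg _) (norm_nonneg _)]
  refine Real.rpow_le_rpow (norm_nonneg _) ?_ hp0.le
  rw [regPi_apply]
  refine ((π₀ _).le_opNorm _).trans (mul_le_mul_of_nonneg_right ?_ (norm_nonneg _))
  exact (h _).trans_eq (hα.isometric _ _)

omit [Group G] [NormedSpace ℂ E] [Fact (1 ≤ p)] [Fintype G] in
theorem single_same [DecidableEq G] (k : G) (e : E) :
    (PiLp.single p k e : Ell p G E) k = e :=
  PiLp.single_eq_same (β := fun _ : G => E) p k e

omit [Group G] [NormedSpace ℂ E] [Fact (1 ≤ p)] [Fintype G] in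
theorem single_ne [DecidableEq G] {k j : G} (h : j ≠ k) (e : E) :
    (PiLp.single p k e : Ell p G E) j = 0 :=
  PiLp.single_eq_of_ne (β := fun _ : G => E) p h e

theorem reg_nondegenerate {α : G → A →ₙₐ[ℂ] A} (hα : IsIsometricAction α)
    {π₀ : A →ₙₐ[ℂ] (E →L[ℂ] E)} (h : Nondegenerate π₀) : Nondegenerate (regPi p α π₀) := by
  classical
  unfold Nondegenerate
  set S : Submodule ℂ (Ell p G E) := Submodule.span ℂ {ξ | ∃ x η, regPi p α π₀ x η = ξ} with hS
  rw [Submodule.dense_iff_topologicalClosure_eq_top, eq_top_iff]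
  have key : ∀ (k : G) (e : E), PiLp.single p k e ∈ S.topologicalClosure := by
    intro k e
    let L : E →L[ℂ] Ell p G E :=
      ((PiLp.continuousLinearEquiv p ℂ fun _ : G => E).symm : (G → E) →L[ℂ] Ell p G E).comp
        (ContinuousLinearMap.single ℂ (fun _ : G => E) k)
    have hL : ∀ e, L e = PiLp.single p k e := fun e => rfl
    have h1 : (Submodule.span ℂ {ξ : E | ∃ x η, π₀ x η = ξ}) ≤
        (S.topologicalClosure).comap (L : E →ₗ[ℂ] Ell p G E) := by
      rw [Submodule.span_le]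
      rintro _ ⟨x, η, rfl⟩
      refine S.le_topologicalClosure (Submodule.subset_span ⟨α k x, PiLp.single p k η, ?_⟩)
      ext j
      rw [regPi_apply]
      by_cases hj : j = k
      · subst hj
        rw [← hα.mul, inv_mul_cancel, hα.one, single_same]
        exact (single_same j (π₀ x η)).symm
      · rw [single_ne hj, map_zero]
        exact (single_ne hj (π₀ x η)).symm
    have h2 : IsClosed ((S.topologicalClosure).comap (L : E →ₗ[ℂ] Ell p G E) : Set E) :=
      S.isClosed_topologicalClosure.preimage L.continuous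
    have h3 := h2.closure_subset_iff.2 h1 (h e)
    exact h3
  intro ξ _
  have h4 : ξ = ∑ k, PiLp.single p k (ξ k) := by
    ext j
    rw [WithLp.ofLp_sum, Finset.sum_apply, Finset.sum_eq_single j]
    · exact (single_same j (ξ j)).symm
    · intro b _ hb
      exact single_ne hb.symm (ξ b)
    · intro hj
      exact absurd (Finset.mem_univ j) hj
  rw [h4]
  exact Submodule.sum_mem _ fun k _ => key k _

theorem reg_covariant (hp : p ≠ ∞) {α : G → A →ₙₐ[ℂ] A} (hα : IsIsometricAction α)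
    {π₀ : A →ₙₐ[ℂ] (E →L[ℂ] E)} (h : Contractive π₀) (h' : Nondegenerate π₀) :
    IsCovariant α (regPi p α π₀) (regV p G E) where
  contractive := reg_contractive hp hα h
  nondegenerate := reg_nondegenerate hα h'
  covariant g x ξ := by
    ext k
    have e1 : ((regV p G E g).symm ξ) = regV p G E g⁻¹ ξ := by
      have := v_symm (regV p G E) g⁻¹
      rw [inv_inv] at this
      rw [this]
    rw [regV_apply, regPi_apply, regPi_apply, e1, regV_apply, inv_inv, mul_inv_cancel_left,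
      mul_inv_rev, inv_inv, hα.mul]

section lp

variable {X : Type u} [MeasurableSpace X] {μ : Measure X}

omit [Group G] [Fact (1 ≤ p)] in
theorem eLpNorm_sum [MeasurableSpace G] [MeasurableSingletonClass G] (hp0 : p ≠ 0) (hp : p ≠ ∞)
    (F : G × X → ℂ) :
    eLpNorm F p (Measure.sum fun g : G => μ.map (Prod.mk g)) =
      (∑ g, eLpNorm (fun x => F (g, x)) p μ ^ p.toReal) ^ (1 / p.toReal) := by
  have hpr : 0 < p.toReal := ENNReal.toReal_pos hp0 hp
  rw [eLpNorm_eq_lintegral_rpow_enorm_toReal hp0 hp, lintegral_sum_measure, tsum_fintype]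
  congr 1
  refine Finset.sum_congr rfl fun g _ => ?_
  rw [(measurableEmbedding_prodMk_left g).lintegral_map,
    eLpNorm_eq_lintegral_rpow_enorm_toReal hp0 hp, ← ENNReal.rpow_mul, one_div,
    inv_mul_cancel₀ hpr.ne', ENNReal.rpow_one]

omit [Group G] in
theorem ae_prod [MeasurableSpace G] [MeasurableSingletonClass G] {P : G × X → Prop} :
    (∀ᵐ q ∂(Measure.sum fun g : G => μ.map (Prod.mk g)), P q) ↔ ∀ g, ∀ᵐ x ∂μ, P (g, x) := by
  rw [Measure.ae_sum_iff]
  exact forall_congr' fun g => (measurableEmbedding_prodMk_left g).ae_map_iff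

omit [Group G] [Fact (1 ≤ p)] in
theorem memLp_prod [MeasurableSpace G] [MeasurableSingletonClass G] (hp0 : p ≠ 0) (hp : p ≠ ∞)
    {F : G × X → ℂ} :
    MemLp F p (Measure.sum fun g : G => μ.map (Prod.mk g)) ↔
      ∀ g, MemLp (fun x => F (g, x)) p μ := by
  have hpr : 0 < p.toReal := ENNReal.toReal_pos hp0 hp
  unfold MemLp
  rw [aestronglyMeasurable_sum_measure_iff, eLpNorm_sum hp0 hp, forall_and]
  refine and_congr (forall_congr' fun g =>
    (measurableEmbedding_prodMk_left g).aestronglyMeasurable_map_iff) ?_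
  rw [ENNReal.rpow_lt_top_iff_of_pos (by positivity), ENNReal.sum_lt_top]
  simp only [Finset.mem_univ, true_implies, ENNReal.rpow_lt_top_iff_of_pos hpr]

omit [Group G] in
/-- `ℓ^p(G, L^p(X))` is an `L^p` space -/
theorem isLpSpace_ell_Lp (hp : p ≠ ∞) [SigmaFinite μ] : IsLpSpace p (Ell p G (Lp ℂ p μ)) := by
  have hp0 : p ≠ 0 := (zero_lt_one.trans_le (Fact.out : 1 ≤ p)).ne'
  have hpr : 0 < p.toReal := ENNReal.toReal_pos hp0 hp
  let _ : MeasurableSpace G := ⊤
  have : MeasurableSingletonClass G := ⟨fun _ => trivial⟩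
  let ν : Measure (G × X) := Measure.sum fun g : G => μ.map (Prod.mk g)
  have : ∀ g : G, SigmaFinite (μ.map (Prod.mk g)) := fun g =>
    (measurableEmbedding_prodMk_left g).sigmaFinite_map
  let fn : Ell p G (Lp ℂ p μ) → G × X → ℂ := fun ξ q => (ξ q.1 : X → ℂ) q.2
  have hfn : ∀ ξ, MemLp (fn ξ) p ν := fun ξ => (memLp_prod hp0 hp).2 fun g => Lp.memLp (ξ g)
  let T : Ell p G (Lp ℂ p μ) → Lp ℂ p ν := fun ξ => (hfn ξ).toLp
  have hadd : ∀ ξ η, T (ξ + η) = T ξ + T η := by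
    intro ξ η
    rw [← MemLp.toLp_add]
    refine MemLp.toLp_congr _ _ (ae_prod.2 fun g => ?_)
    exact Lp.coeFn_add (ξ g) (η g)
  have hsmul : ∀ (c : ℂ) ξ, T (c • ξ) = c • T ξ := by
    intro c ξ
    rw [← MemLp.toLp_const_smul]
    refine MemLp.toLp_congr _ _ (ae_prod.2 fun g => ?_)
    exact Lp.coeFn_smul c (ξ g)
  have hnorm : ∀ ξ, ‖T ξ‖ = ‖ξ‖ := by
    intro ξ
    rw [Lp.norm_toLp, eLpNorm_sum hp0 hp, PiLp.norm_eq_sum hpr, ← ENNReal.toReal_rpow,
      ENNReal.toReal_sum]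
    · congr 1
      refine Finset.sum_congr rfl fun g _ => ?_
      rw [← ENNReal.toReal_rpow, Lp.norm_def]
    · intro g _
      exact (ENNReal.rpow_lt_top_of_nonneg hpr.le (Lp.eLpNorm_ne_top (ξ g))).ne
  have hsurj : Function.Surjective T := by
    intro F
    have h1 : MemLp (F : G × X → ℂ) p ν := Lp.memLp F
    have h2 := (memLp_prod hp0 hp).1 h1
    refine ⟨WithLp.toLp p fun g => (h2 g).toLp, ?_⟩
    refine Eq.trans (MemLp.toLp_congr _ h1 (ae_prod.2 fun g => ?_)) (Lp.toLp_coeFn F h1)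
    exact (h2 g).coeFn_toLp
  let L : Ell p G (Lp ℂ p μ) →ₗᵢ[ℂ] Lp ℂ p ν :=
    { toFun := T, map_add' := hadd, map_smul' := hsmul, norm_map' := hnorm }
  exact ⟨G × X, inferInstance, ν, inferInstance, ⟨LinearIsometryEquiv.ofSurjective L hsurj⟩⟩

omit [Group G] in
theorem isLpSpace_ell (hp : p ≠ ∞) (hE : IsLpSpace p E) : IsLpSpace p (Ell p G E) := by
  obtain ⟨X, _, μ, _, ⟨e⟩⟩ := hE
  obtain ⟨Y, _, ν, h, ⟨f⟩⟩ := isLpSpace_ell_Lp (G := G) (μ := μ) hp
  exact ⟨Y, inferInstance, ν, h,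
    ⟨(LinearIsometryEquiv.piLpCongrRight p fun _ : G => e).trans f⟩⟩

end lp

omit [Group G] [Fact (1 ≤ p)] [NormedSpace ℂ E] in
theorem ellNorm_eq (hp0 : p ≠ 0) (hp : p ≠ ∞) (ξ : G → E) :
    ellNorm p ξ = ‖(WithLp.toLp p ξ : Ell p G E)‖ := by
  rw [PiLp.norm_eq_sum (ENNReal.toReal_pos hp0 hp)]
  rfl

theorem regular_eq (α : G → A →ₙₐ[ℂ] A) (π₀ : A →ₙₐ[ℂ] (E →L[ℂ] E)) (a : G → A) (ξ : G → E) :
    (WithLp.toLp p (regular α π₀ a ξ) : Ell p G E) =
      integ (regPi p α π₀) (regV p G E) a (WithLp.toLp p ξ) := by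
  ext h
  rw [integ_apply, WithLp.ofLp_sum, Finset.sum_apply]
  rfl

end proofs

/-- **Full and reduced `L^p` crossed products by finite groups agree isometrically.** Let
`p ∈ [1, ∞)`, let `G` be a finite group and let `α` be an action of `G` by isometric automorphisms
on a nondegenerately `σ`-finitely representable `L^p` operator algebra `A`. Then the full and the
reduced norm of every function `a : G → A` agree. -/
theorem result (p : ℝ≥0∞) [Fact (1 ≤ p)] (hp : p ≠ ∞) (G : Type u) [Group G] [Fintype G]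
    (A : Type u) [NonUnitalNormedRing A] [NormedSpace ℂ A] [IsScalarTower ℂ A A]
    [SMulCommClass ℂ A A] [CompleteSpace A] (_hA : Representable p A) (α : G → A →ₙₐ[ℂ] A)
    (hα : IsIsometricAction α) (a : G → A) :
    reducedNorm p α a = fullNorm p α a := by
  have hp0 : p ≠ 0 := (zero_lt_one.trans_le (Fact.out : 1 ≤ p)).ne'
  unfold reducedNorm fullNorm
  congr 1
  ext M
  refine and_congr_right fun hM => ⟨fun h E _ _ hE π v hc ξ => ?_, fun h E _ _ hE π₀ h1 h2 ξ => ?_⟩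
  · have h3 : ‖integ (regPi p α π) (regV p G E) a‖ ≤ M := by
      refine ContinuousLinearMap.opNorm_le_bound _ hM fun ζ => ?_
      have h4 := h E hE π hc.contractive hc.nondegenerate ζ
      rw [ellNorm_eq hp0 hp, ellNorm_eq hp0 hp, regular_eq] at h4
      exact h4
    have h5 := (integ π v a).le_of_opNorm_le ((norm_integ_le hp hc a).trans h3) ξ
    rw [integ_apply] at h5
    exact h5
  · have h3 := h (Ell p G E) (isLpSpace_ell hp hE) (regPi p α π₀) (regV p G E)
      (reg_covariant hp hα h1 h2) (WithLp.toLp p ξ)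
    rw [ellNorm_eq hp0 hp, ellNorm_eq hp0 hp, regular_eq, integ_apply]
    exact h3

end Pool.Agent.Results.MP_579095_an.FullEqReduced
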